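import Pool.Agent.R998.GQData

/-!
# The trilateral-free configuration (40_4) is geometrically realizable

The symplectic generalized quadrangle `W(3)` (40 points and 40 lines, four points on a line, four
lines through a point, no trilateral) and its dual have realizations by points and straight lines
in the real projective plane.
-/

set_option autoImplicit false

namespace Pool.Agent.Results.MP_6466f5_co.RealQuadrangle

open Pool.Agent.R998.GQ
open scoped LinearAlgebra.Projectivization

/-- The four-dimensional vector space over `F_3` underlying `PG(3,3)`. -/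
abbrev V := Fin 4 → ZMod 3

/-- The standard symplectic form. -/
def symp (u v : V) : ZMod 3 := u 0 * v 1 - u 1 * v 0 + u 2 * v 3 - u 3 * v 2

/-- The points of `W(3)`: the points of `PG(3,3)`. -/
abbrev W3Point := ℙ (ZMod 3) V

/-- The lines of `W(3)`: the lines of `PG(3,3)` that are totally isotropic. -/
def W3Line := {W : Submodule (ZMod 3) V //
  Module.finrank (ZMod 3) W = 2 ∧ ∀ u ∈ W, ∀ v ∈ W, symp u v = 0}

/-- Incidence of `W(3)`. -/
def W3Inc (p : W3Point) (W : W3Line) : Prop := p.submodule ≤ W.1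

/-- The points of the real projective plane. -/
abbrev PlanePoint := ℙ ℝ (Fin 3 → ℝ)

/-- The straight lines of the real projective plane. -/
def PlaneLine := {U : Submodule ℝ (Fin 3 → ℝ) // Module.finrank ℝ U = 2}

/-- A geometric realization of an incidence structure: points go injectively to points and lines
injectively to straight lines of the real projective plane, and a point lies on a line if and only
if the two are incident. -/
def GeometricallyRealizable {P L : Type} (I : P → L → Prop) : Prop :=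
  ∃ (f : P → PlanePoint) (g : L → PlaneLine), Function.Injective f ∧ Function.Injective g ∧
    ∀ p l, (f p).submodule ≤ (g l).1 ↔ I p l

/-- Isomorphism of incidence structures. -/
def Isomorphic {P L P' L' : Type} (I : P → L → Prop) (I' : P' → L' → Prop) : Prop :=
  ∃ (e : P ≃ P') (e' : L ≃ L'), ∀ p l, I p l ↔ I' (e p) (e' l)

/-! ### codes -/

def code (w : V) : ℕ := (w 0).val + 3 * (w 1).val + 9 * (w 2).val + 27 * (w 3).val

lemma code_lt (w : V) : code w < 81 := by
  have h := fun k => ZMod.val_lt (w k)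
  have := h 0; have := h 1; have := h 2; have := h 3
  unfold code; omega

lemma code_digits (w : V) : code w % 3 = (w 0).val ∧ code w / 3 % 3 = (w 1).val ∧
    code w / 9 % 3 = (w 2).val ∧ code w / 27 % 3 = (w 3).val := by
  have h := fun k => ZMod.val_lt (w k)
  have := h 0; have := h 1; have := h 2; have := h 3
  unfold code
  refine ⟨?_, ?_, ?_, ?_⟩ <;> omega

lemma code_inj {u v : V} (h : code u = code v) : u = v := by
  obtain ⟨a0, a1, a2, a3⟩ := code_digits u
  obtain ⟨b0, b1, b2, b3⟩ := code_digits v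
  rw [h] at a0 a1 a2 a3
  funext k
  apply ZMod.val_injective 3
  fin_cases k
  · exact a0.symm.trans b0
  · exact a1.symm.trans b1
  · exact a2.symm.trans b2
  · exact a3.symm.trans b3

lemma code_comb (a b : ZMod 3) (u v : V) :
    code (a • u + b • v) = comb a.val b.val (code u) (code v) := by
  obtain ⟨a0, a1, a2, a3⟩ := code_digits u
  obtain ⟨b0, b1, b2, b3⟩ := code_digits v
  have key : ∀ k, ((a • u + b • v) k).val = (a.val * (u k).val + b.val * (v k).val) % 3 := by
    intro k
    rw [Pi.add_apply, Pi.smul_apply, Pi.smul_apply, smul_eq_mul, smul_eq_mul, ZMod.val_add,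
      ZMod.val_mul, ZMod.val_mul, ← Nat.add_mod]
  unfold comb
  rw [a0, a1, a2, a3, b0, b1, b2, b3]
  unfold code
  rw [key, key, key, key]

lemma code_zero : code 0 = 0 := by simp [code]

lemma code_ne_zero {u : V} (h : u ≠ 0) : code u ≠ 0 := by
  intro h0; apply h; apply code_inj; rw [h0, code_zero]

lemma code_neg (u : V) : code (-u) = comb 2 0 (code u) 0 := by
  have := code_comb 2 0 u 0
  rw [code_zero] at this
  rw [show (-u : V) = (2 : ZMod 3) • u + (0 : ZMod 3) • (0 : V) by
    funext k; simp; generalize u k = x; revert x; decide]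
  rw [this]; rfl

lemma symp_zero_iff (u v : V) : symp u v = 0 ↔ sc (code u) (code v) = 0 := by
  obtain ⟨a0, a1, a2, a3⟩ := code_digits u
  obtain ⟨b0, b1, b2, b3⟩ := code_digits v
  have h : symp u v = (((u 0).val * (v 1).val + 2 * ((u 1).val * (v 0).val) +
      (u 2).val * (v 3).val + 2 * ((u 3).val * (v 2).val) : ℕ) : ZMod 3) := by
    push_cast
    simp only [ZMod.natCast_val, ZMod.cast_id', id_eq]
    have h2 : (2 : ZMod 3) = -1 := by decide
    rw [h2]; unfold symp; ring
  rw [h, ZMod.natCast_eq_zero_iff]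
  unfold sc
  rw [a0, a1, a2, a3, b0, b1, b2, b3]
  exact Nat.dvd_iff_mod_eq_zero

/-! ### lines of W(3) in the table -/

lemma line_idx (W : W3Line) : ∃ l ∈ lns, ∀ w : V, w ∈ W.1 ↔ code w ∈ l.1 := by
  obtain ⟨W, h2, hiso⟩ := W
  let b := Module.finBasisOfFinrankEq (ZMod 3) W h2
  set u : V := (b 0 : V) with hu
  set v : V := (b 1 : V) with hv
  have hli := b.linearIndependent
  have hpair : ∀ s t : ZMod 3, s • u + t • v = 0 → s = 0 ∧ t = 0 := by
    intro s t hst
    have := Fintype.linearIndependent_iff.mp hli ![s, t] (by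
      rw [Fin.sum_univ_two]
      apply Subtype.ext
      simpa using hst)
    exact ⟨this 0, this 1⟩
  have hspan : ∀ w ∈ W, ∃ s t : ZMod 3, w = s • u + t • v := by
    intro w hw
    refine ⟨b.repr ⟨w, hw⟩ 0, b.repr ⟨w, hw⟩ 1, ?_⟩
    have := b.sum_repr ⟨w, hw⟩
    rw [Fin.sum_univ_two] at this
    have h3 := congrArg Subtype.val this
    simpa using h3.symm
  have hu0 : u ≠ 0 := by
    intro h0
    have := (hpair 1 0 (by rw [h0]; simp)).1
    exact absurd this (by decide)
  have hv0 : v ≠ 0 := by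
    intro h0
    have := (hpair 0 1 (by rw [h0]; simp)).2
    exact absurd this (by decide)
  have huv : v ≠ u := by
    intro h0
    have := (hpair 1 (-1) (by rw [h0]; simp)).1
    exact absurd this (by decide)
  have huv' : v ≠ -u := by
    intro h0
    have := (hpair 1 1 (by rw [h0]; simp)).1
    exact absurd this (by decide)
  have hmu : u ∈ W := (b 0).2
  have hmv : v ∈ W := (b 1).2
  have c1 : code u ≠ 0 := code_ne_zero hu0
  have c2 : code v ≠ 0 := code_ne_zero hv0
  have c3 : code v ≠ code u := fun h => huv (code_inj h)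
  have c4 : code v ≠ comb 2 0 (code u) 0 := by
    rw [← code_neg]; exact fun h => huv' (code_inj h)
  have hs := (symp_zero_iff u v).mp (hiso u hmu v hmv)
  rcases chk2 (code u) (List.mem_range.mpr (code_lt u)) (code v) (List.mem_range.mpr (code_lt v))
    with h | h | h | h | h | ⟨l, hl, h1, h2'⟩
  · exact absurd h c1
  · exact absurd h c2
  · exact absurd h c3
  · exact absurd h c4
  · exact absurd hs h
  refine ⟨l, hl, fun w => ?_⟩
  rcases chk3 l hl (code u) h1 (code v) h2' with h | h | h | h | ⟨g1, g2⟩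
  · exact absurd h c1
  · exact absurd h c2
  · exact absurd h c3
  · exact absurd h c4
  constructor
  · intro hw
    obtain ⟨s, t, rfl⟩ := hspan w hw
    rw [code_comb]
    exact g1 _ (List.mem_range.mpr (ZMod.val_lt s)) _ (List.mem_range.mpr (ZMod.val_lt t))
  · intro hw
    obtain ⟨a, ha, b', hb, hab⟩ := g2 _ hw
    rw [List.mem_range] at ha hb
    have : w = (a : ZMod 3) • u + (b' : ZMod 3) • v := by
      apply code_inj
      rw [code_comb, ZMod.val_natCast, ZMod.val_natCast, Nat.mod_eq_of_lt ha, Nat.mod_eq_of_lt hb, hab]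
    rw [this]
    exact W.add_mem (W.smul_mem _ hmu) (W.smul_mem _ hmv)

noncomputable def lidx (W : W3Line) : List ℕ × (ℤ × ℤ × ℤ) := (line_idx W).choose

lemma lidx_mem (W : W3Line) : lidx W ∈ lns := (line_idx W).choose_spec.1

lemma lidx_iff (W : W3Line) (w : V) : w ∈ W.1 ↔ code w ∈ (lidx W).1 := (line_idx W).choose_spec.2 w

lemma inc_iff (W : W3Line) {w : V} (hw : w ≠ 0) : w ∈ W.1 ↔ dot (lidx W).2 (ph (code w)) = 0 := by
  rw [lidx_iff]
  rcases chk1 _ (lidx_mem W) (code w) (List.mem_range.mpr (code_lt w)) with h | h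
  · exact absurd h (code_ne_zero hw)
  · exact h.symm

lemma W3Inc_iff (p : W3Point) (W : W3Line) : W3Inc p W ↔ dot (lidx W).2 (ph (code p.rep)) = 0 := by
  rw [← inc_iff W p.rep_nonzero]
  unfold W3Inc
  conv_lhs => rw [← p.mk_rep]
  rw [Projectivization.submodule_mk, Submodule.span_singleton_le_iff_mem]

/-! ### real vectors -/

/-- the real vector of an integer triple -/
def rv (a : ℤ × ℤ × ℤ) : Fin 3 → ℝ := ![(a.1 : ℝ), (a.2.1 : ℝ), (a.2.2 : ℝ)]

/-- the linear functional `x ↦ a · x` -/
noncomputable def fn (a : ℤ × ℤ × ℤ) : (Fin 3 → ℝ) →ₗ[ℝ] ℝ :=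
  (a.1 : ℝ) • LinearMap.proj 0 + (a.2.1 : ℝ) • LinearMap.proj 1 + (a.2.2 : ℝ) • LinearMap.proj 2

lemma fn_apply (a : ℤ × ℤ × ℤ) (x : Fin 3 → ℝ) :
    fn a x = a.1 * x 0 + a.2.1 * x 1 + a.2.2 * x 2 := by
  simp [fn]

lemma fn_rv (a b : ℤ × ℤ × ℤ) : fn a (rv b) = ((dot a b : ℤ) : ℝ) := by
  rw [fn_apply]; simp [rv, dot]

lemma rv_ne_zero {a : ℤ × ℤ × ℤ} (h : a ≠ (0, 0, 0)) : rv a ≠ 0 := by
  intro h0
  apply h
  have h1 := congrFun h0 0
  have h2 := congrFun h0 1
  have h3 := congrFun h0 2
  simp [rv] at h1 h2 h3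
  obtain ⟨x, y, z⟩ := a
  simp only at h1 h2 h3
  subst h1; subst h2; subst h3; rfl

lemma fn_ne_zero {a : ℤ × ℤ × ℤ} (h : a ≠ (0, 0, 0)) : fn a ≠ 0 := by
  intro h0
  apply h
  have h1 := congrArg (fun f => f (Pi.single 0 1)) h0
  have h2 := congrArg (fun f => f (Pi.single 1 1)) h0
  have h3 := congrArg (fun f => f (Pi.single 2 1)) h0
  simp [fn_apply] at h1 h2 h3
  obtain ⟨x, y, z⟩ := a
  simp only at h1 h2 h3
  subst h1; subst h2; subst h3; rfl

lemma finrank_ker {a : ℤ × ℤ × ℤ} (h : a ≠ (0, 0, 0)) :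
    Module.finrank ℝ (LinearMap.ker (fn a)) = 2 := by
  have := Module.Dual.finrank_ker_add_one_of_ne_zero (f := fn a) (fn_ne_zero h)
  simp at this
  omega

/-- plane line with normal `a` -/
noncomputable def pl (a : ℤ × ℤ × ℤ) (h : a ≠ (0, 0, 0)) : PlaneLine :=
  ⟨LinearMap.ker (fn a), finrank_ker h⟩

lemma le_ker (a b : ℤ × ℤ × ℤ) (ha : a ≠ (0, 0, 0)) (hb : b ≠ (0, 0, 0)) :
    (Projectivization.mk ℝ (rv b) (rv_ne_zero hb)).submodule ≤ (pl a ha).1 ↔ dot a b = 0 := by
  rw [Projectivization.submodule_mk, Submodule.span_singleton_le_iff_mem]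
  unfold pl
  rw [LinearMap.mem_ker, fn_rv]
  exact_mod_cast Iff.rfl

lemma dot_comm (a b : ℤ × ℤ × ℤ) : dot a b = dot b a := by unfold dot; ring

lemma cross_zero_of_mk {a b : ℤ × ℤ × ℤ} (ha : a ≠ (0, 0, 0)) (hb : b ≠ (0, 0, 0))
    (h : Projectivization.mk ℝ (rv a) (rv_ne_zero ha) = Projectivization.mk ℝ (rv b) (rv_ne_zero hb)) :
    cross a b = (0, 0, 0) := by
  rw [Projectivization.mk_eq_mk_iff'] at h
  obtain ⟨t, ht⟩ := h
  have h1 := congrFun ht 0
  have h2 := congrFun ht 1
  have h3 := congrFun ht 2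
  simp [rv] at h1 h2 h3
  obtain ⟨x, y, z⟩ := a
  obtain ⟨x', y', z'⟩ := b
  simp only at h1 h2 h3
  unfold cross
  simp only [Prod.mk.injEq]
  refine ⟨?_, ?_, ?_⟩
  · have : (y : ℝ) * z' - z * y' = 0 := by rw [← h2, ← h3]; ring
    exact_mod_cast this
  · have : (z : ℝ) * x' - x * z' = 0 := by rw [← h1, ← h3]; ring
    exact_mod_cast this
  · have : (x : ℝ) * y' - y * x' = 0 := by rw [← h1, ← h2]; ring
    exact_mod_cast this

lemma cross_zero_of_ker {a b : ℤ × ℤ × ℤ} (ha : a ≠ (0, 0, 0)) (hb : b ≠ (0, 0, 0))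
    (h : pl a ha = pl b hb) : cross a b = (0, 0, 0) := by
  have hk : LinearMap.ker (fn a) = LinearMap.ker (fn b) := congrArg Subtype.val h
  have h1 : rv (cross a (cross a b)) ∈ LinearMap.ker (fn a) := by
    rw [LinearMap.mem_ker, fn_rv]
    have : dot a (cross a (cross a b)) = 0 := by unfold dot cross; ring
    rw [this]; simp
  rw [hk, LinearMap.mem_ker, fn_rv] at h1
  have h2 : dot b (cross a (cross a b)) = 0 := by exact_mod_cast h1
  have h3 : (cross a b).1 ^ 2 + (cross a b).2.1 ^ 2 + (cross a b).2.2 ^ 2 = 0 := by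
    have : dot b (cross a (cross a b)) =
        -((cross a b).1 ^ 2 + (cross a b).2.1 ^ 2 + (cross a b).2.2 ^ 2) := by
      unfold dot cross; ring
    rw [this] at h2; linarith
  have e1 : (cross a b).1 = 0 := by nlinarith [sq_nonneg (cross a b).1, sq_nonneg (cross a b).2.1, sq_nonneg (cross a b).2.2]
  have e2 : (cross a b).2.1 = 0 := by nlinarith [sq_nonneg (cross a b).1, sq_nonneg (cross a b).2.1, sq_nonneg (cross a b).2.2]
  have e3 : (cross a b).2.2 = 0 := by nlinarith [sq_nonneg (cross a b).1, sq_nonneg (cross a b).2.1, sq_nonneg (cross a b).2.2]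
  exact Prod.ext e1 (Prod.ext e2 e3)

lemma ph_ne (p : W3Point) : ph (code p.rep) ≠ (0, 0, 0) := by
  rcases chk6 _ (List.mem_range.mpr (code_lt p.rep)) with h | h
  · exact absurd h (code_ne_zero p.rep_nonzero)
  · exact h

lemma eq_of_cross {p q : W3Point} (h : cross (ph (code p.rep)) (ph (code q.rep)) = (0, 0, 0)) :
    p = q := by
  rcases chk4 _ (List.mem_range.mpr (code_lt p.rep)) _ (List.mem_range.mpr (code_lt q.rep))
    with h1 | h1 | h1 | h1 | h1
  · exact absurd h1 (code_ne_zero p.rep_nonzero)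
  · exact absurd h1 (code_ne_zero q.rep_nonzero)
  · have := code_inj h1
    rw [← p.mk_rep, ← q.mk_rep, Projectivization.mk_eq_mk_iff']
    exact ⟨1, by rw [one_smul, this]⟩
  · rw [← code_neg] at h1
    have := code_inj h1
    rw [← p.mk_rep, ← q.mk_rep, Projectivization.mk_eq_mk_iff']
    exact ⟨-1, by rw [this]; simp⟩
  · exact absurd h h1

lemma line_eq {W W' : W3Line} (h : ∀ p : W3Point, W3Inc p W ↔ W3Inc p W') : W = W' := by
  apply Subtype.ext
  ext w
  by_cases hw : w = 0
  · subst hw; simp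
  · have := h (Projectivization.mk _ w hw)
    unfold W3Inc at this
    rwa [Projectivization.submodule_mk, Submodule.span_singleton_le_iff_mem,
      Submodule.span_singleton_le_iff_mem] at this

theorem real_W3 : GeometricallyRealizable W3Inc := by
  refine ⟨fun p => Projectivization.mk ℝ (rv (ph (code p.rep))) (rv_ne_zero (ph_ne p)),
    fun W => pl (lidx W).2 (chk5 _ (lidx_mem W)), ?_, ?_, ?_⟩
  · intro p q h
    exact eq_of_cross (cross_zero_of_mk (ph_ne p) (ph_ne q) h)
  · intro W W' h
    apply line_eq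
    intro p
    rw [W3Inc_iff, W3Inc_iff, ← le_ker _ _ (chk5 _ (lidx_mem W)) (ph_ne p),
      ← le_ker _ _ (chk5 _ (lidx_mem W')) (ph_ne p)]
    simp only at h
    rw [h]
  · intro p W
    rw [W3Inc_iff]
    exact le_ker _ _ (chk5 _ (lidx_mem W)) (ph_ne p)

theorem real_dual : GeometricallyRealizable (fun (W : W3Line) (p : W3Point) => W3Inc p W) := by
  refine ⟨fun W => Projectivization.mk ℝ (rv (lidx W).2) (rv_ne_zero (chk5 _ (lidx_mem W))),
    fun p => pl (ph (code p.rep)) (ph_ne p), ?_, ?_, ?_⟩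
  · intro W W' h
    apply line_eq
    intro p
    rw [W3Inc_iff, W3Inc_iff, dot_comm, ← le_ker _ _ (ph_ne p) (chk5 _ (lidx_mem W)),
      dot_comm, ← le_ker _ _ (ph_ne p) (chk5 _ (lidx_mem W'))]
    simp only at h
    rw [h]
  · intro p q h
    exact eq_of_cross (cross_zero_of_ker (ph_ne p) (ph_ne q) h)
  · intro W p
    have h1 := le_ker (ph (code p.rep)) (lidx W).2 (ph_ne p) (chk5 _ (lidx_mem W))
    have h2 := W3Inc_iff p W
    rw [dot_comm] at h2
    exact h1.trans h2.symm

/-- **The trilateral-free configuration (40_4) has a geometric realization.** Every incidence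
structure isomorphic to the symplectic quadrangle `W(3)` or to its dual can be realized by points
and straight lines in the real projective plane. -/
theorem result {P L : Type} (I : P → L → Prop)
    (hI : Isomorphic I W3Inc ∨ Isomorphic I (fun (W : W3Line) (p : W3Point) => W3Inc p W)) :
    GeometricallyRealizable I := by
  rcases hI with ⟨e, e', h⟩ | ⟨e, e', h⟩
  · obtain ⟨f, g, hf, hg, hi⟩ := real_W3
    exact ⟨f ∘ e, g ∘ e', hf.comp e.injective, hg.comp e'.injective,
      fun p l => (hi (e p) (e' l)).trans (h p l).symm⟩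
  · obtain ⟨f, g, hf, hg, hi⟩ := real_dual
    exact ⟨f ∘ e, g ∘ e', hf.comp e.injective, hg.comp e'.injective,
      fun p l => (hi (e p) (e' l)).trans (h p l).symm⟩

end Pool.Agent.Results.MP_6466f5_co.RealQuadrangle
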